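import Pool.Agent.N127.TW.Main
import Pool.Agent.W574.MO.Homog
import Pool.Agent.TH192.DT.Strict

set_option autoImplicit false
set_option linter.unusedSectionVars false

/-! # Germs which become homogeneous in some of the variables -/

namespace Pool.Agent.N127.TW

open MvPolynomial Pool.Agent.W574.SM Pool.Agent.R852.PP Pool.Agent.TH192.DT Pool.Agent.N103.V
open Pool.Agent.H628R4.TP (IsBFunction IsLocalBFunction)
open Pool.Agent.Y229.RE (trans trans_local)
open Pool.Agent.Y229.PS (formal_of_local IsFormalBFunction local_of_formal formal_of_unit coordB)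
open Pool.Agent.N127.PB (RootCond root_ideal)

/-- The data of a polynomial `G = h(x) ∏_t (∑_j y_{t,j} f_{t,j}(x)) ^ a_t` in `N` variables (numbered by
`ε`): forms `h ≠ 0` of degree `dh` and `f_{t,j}` of degree `δ t` (for every `t` not all zero) in
`x = (x_0, ..., x_n)`, at least one `t`, exponents `a_t ≥ 1`; the degree `d` of `G` in `x` is positive. -/
structure ConeData (N : ℕ) where
  /-- `x = (x_0, ..., x_n)` -/
  n : ℕ
  /-- the number of the factors -/
  m : ℕ
  /-- the numbers of the `f_{t,j}` -/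
  r : Fin m → ℕ
  /-- the exponents -/
  a : Fin m → ℕ
  /-- the form `h` -/
  h : MvPolynomial (Fin (n + 1)) ℂ
  /-- the forms `f_{t,j}` -/
  f : (t : Fin m) → Fin (r t) → MvPolynomial (Fin (n + 1)) ℂ
  /-- the degree of `h` -/
  dh : ℕ
  /-- the degrees of the `f_{t,j}` -/
  δ : Fin m → ℕ
  /-- the numbering of the variables -/
  ε : (Σ t, Fin (r t)) ⊕ Fin (n + 1) ≃ Fin N
  hm : 0 < m
  ha : ∀ t, 0 < a t
  hh : h.IsHomogeneous dh
  hf : ∀ t j, (f t j).IsHomogeneous (δ t)
  hh0 : h ≠ 0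
  hf0 : ∀ t, ∃ j, f t j ≠ 0
  hd : 0 < dh + ∑ t, a t * δ t

namespace ConeData

variable {N : ℕ} (C : ConeData N)

/-- the polynomial `G = h(x) ∏_t (∑_j y_{t,j} f_{t,j}(x)) ^ a_t` -/
noncomputable def G : MvPolynomial (Fin N) ℂ := rename C.ε (form C.a C.h C.f)

/-- the degree of `G` in `x` -/
def d : ℕ := C.dh + ∑ t, C.a t * C.δ t

/-- `n + 1` of the generators `h ∏_t ∏_{i < a_t} f_{t, J(t, i)}` of the ideal `h ∏_t (f_{t,j})_j ^ a_t`
have a nonzero Jacobian determinant, or `n = 2` and the linear system spanned by these generators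
satisfies one of the conditions `RootCond`. -/
def Cond : Prop :=
  (∃ J : Fin (C.n + 1) → Ch (fun t => Fin (C.r t)) C.a,
    (Matrix.of fun s t => pderiv s (gen C.a C.h C.f (J t))).det ≠ 0) ∨
  ∃ hn : C.n + 1 = 3, RootCond (Submodule.span ℂ (Set.range
    fun J : Ch (fun t => Fin (C.r t)) C.a => rename (Fin.cast hn) (gen C.a C.h C.f J))) C.d

theorem form_homogeneous : (form C.a C.h C.f).IsHomogeneous
    (C.dh + ∑ t, (1 + C.δ t) * C.a t) := by
  unfold form
  refine (C.hh.rename_isHomogeneous).mul ?_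
  unfold powProd
  refine IsHomogeneous.prod _ _ _ fun t _ => ?_
  refine IsHomogeneous.pow (IsHomogeneous.sum _ _ _ fun j _ => ?_) _
  exact (isHomogeneous_X ℂ _).mul ((C.hf t j).rename_isHomogeneous)

theorem form_ne : form C.a C.h C.f ≠ 0 := by
  unfold form
  refine mul_ne_zero ?_ ?_
  · intro h0
    exact C.hh0 (rename_injective _ Sum.inr_injective (by rw [h0, map_zero]))
  · exact powProd_ne C.a C.f C.hf0

theorem isB_of_germ {g : MvPowerSeries (Fin N) ℂ} (hg : BecomesAt g C.G) {b : Polynomial ℂ}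
    (hb : IsFormalBFunction g b) : IsBFunction C.G b := by
  obtain ⟨ε', φ, u, hφ, hφ0, hu, h3⟩ := hg
  obtain ⟨u, rfl⟩ := hu
  have h4 : IsLocalBFunction (rename ε' C.G) b := by
    refine local_of_formal (formal_of_unit (Units.inv_mul u) ?_)
    rw [← h3]
    exact coordB hφ hφ0 hb
  have hne : rename ε' C.G ≠ 0 := by
    intro h5
    have h6 : C.G = 0 := rename_injective ε' ε'.injective (by rw [h5, map_zero])
    exact C.form_ne (rename_injective C.ε C.ε.injective (by
      rw [map_zero]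
      exact h6))
  exact isB_of_rename ε' _ b (Pool.Agent.W574.MO.global_of_local _ hne
    (C.dh + ∑ t, (1 + C.δ t) * C.a t)
    ((C.form_homogeneous.rename_isHomogeneous).rename_isHomogeneous) b h4)

/-- the factor of the exceptional divisor -/
theorem tfac_reg {b : Polynomial ℂ} (hb : IsBFunction C.G b) (e : ℕ) {s₀ : ℂ}
    (hne : b.eval s₀ ≠ 0) (hc : s₀ ≠ -((C.n : ℂ) + 1) / C.d ∨ C.Cond) :
    tfac e C.d (C.n + 1) ∈ Reg s₀ := by
  classical
  unfold tfac
  split_ifs with hed
  · refine fac_mem C.d (C.n + 1) s₀ fun h0 => ?_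
    have hdc : (C.d : ℂ) ≠ 0 := Nat.cast_ne_zero.2 C.hd.ne'
    have h1 : s₀ = -((C.n : ℂ) + 1) / C.d := by
      rw [eq_div_iff hdc]
      push_cast at h0
      linear_combination h0
    rcases hc with hc | hc
    · exact hc h1
    · apply hne
      rw [h1]
      have : Nonempty (Fin C.m) := ⟨⟨0, C.hm⟩⟩
      exact root_top C.a C.h C.f C.dh C.δ C.hh C.hf C.hh0 C.hf0 C.ha C.hd b
        (isB_of_rename C.ε _ b hb) hc
  · exact Subring.zero_mem _

end ConeData

/-- Germs `g` with their `e`-th twisted local topological zeta functions `z` (`e ≥ 1`), for a complex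
number `s₀`:

* `susp`: `g` becomes, in formal coordinates and up to a unit, a polynomial of the class `𝓢`, whose
  twisted zeta functions are the `Z e` (`SusZeta`);
* `cone`: `g` becomes, in formal coordinates and up to a unit, a polynomial
  `G = h(x) ∏_t (∑_j y_{t,j} f_{t,j}(x)) ^ a_t`, where `h` and the `f_{t,j}` are forms in
  `x = (x_0, ..., x_n)` (`ConeData`); then `z = [e ∣ d] / (d s + n + 1) * (χ_0 + ∑_i χ_i z_i)`, where the
  `z_i` are zeta functions of the germs of `G` at points `p_i`, which are again of the forms described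
  here, and the `χ`s are integers. Here we ask that `s₀ ≠ -(n + 1) / d`, or that `ConeData.Cond` holds.

For the second case, blow up the space `x = 0`. The exceptional divisor is `ℙ^n × ℂ^κ`, with `N = d` and
`ν = n + 1`; near a point `(Q, c)` the pull-back of `G` is `t ^ d G(q, y)`, where `t = 0` is the equation
of the exceptional divisor and `q ≠ 0` is a point of the line `Q`. Over the origin we have `c = 0`, the
`p_i` are points `(q_i, 0)`, and the `χ_i` are the Euler characteristics of the sets of points `Q` of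
`ℙ^n` where the zeta function of the germ of `G` at `(q, 0)` is `z_i` (`χ_0`: where `G(q, 0) ≠ 0`). -/
inductive ConeGerm {N : ℕ} (e : ℕ) (s₀ : ℂ) : MvPowerSeries (Fin N) ℂ → RatFunc ℂ → Prop
  | susp (g : MvPowerSeries (Fin N) ℂ) (σ : Type) (F : MvPolynomial σ ℂ) (Z : ℕ → RatFunc ℂ)
      (hg : BecomesAt g F) (hZ : SusZeta σ F 0 Z) : ConeGerm e s₀ g (Z e)
  | cone (g : MvPowerSeries (Fin N) ℂ) (C : ConeData N) (hg : BecomesAt g C.G)
      (hc : s₀ ≠ -((C.n : ℂ) + 1) / C.d ∨ C.Cond) (l : ℕ) (p : Fin l → Fin N → ℂ)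
      (z : Fin l → RatFunc ℂ) (χ₀ : ℤ) (χ : Fin l → ℤ)
      (hz : ∀ i, ConeGerm e s₀ (trans (p i) C.G : MvPowerSeries (Fin N) ℂ) (z i)) :
      ConeGerm e s₀ g (tfac e C.d (C.n + 1) *
        ((χ₀ : RatFunc ℂ) + ∑ i, (χ i : RatFunc ℂ) * z i))

/-- `χ_0 + ∑_i χ_i z_i` is regular if the `z_i` are -/
theorem sum_reg {s₀ : ℂ} {l : ℕ} (z : Fin l → RatFunc ℂ) (hz : ∀ i, z i ∈ Reg s₀) (χ₀ : ℤ)
    (χ : Fin l → ℤ) : (χ₀ : RatFunc ℂ) + ∑ i, (χ i : RatFunc ℂ) * z i ∈ Reg s₀ :=
  Subring.add_mem _ (intCast_mem _ _) (Subring.sum_mem _ fun i _ =>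
    Subring.mul_mem _ (intCast_mem _ _) (hz i))

/-- The zeta functions of these germs are regular at `s₀` if `b(s₀) ≠ 0`. -/
theorem ConeGerm.reg {N : ℕ} {e : ℕ} (he : 1 ≤ e) {s₀ : ℂ} {g : MvPowerSeries (Fin N) ℂ}
    {z : RatFunc ℂ} (h : ConeGerm e s₀ g z) {b : Polynomial ℂ} (hne : b.eval s₀ ≠ 0) :
    IsFormalBFunction g b → z ∈ Reg s₀ := by
  induction h with
  | susp g σ F Z hg hZ => exact fun hb => germ_reg hZ hg hb he hne
  | cone g C hg hc l p z χ₀ χ hz ih =>
    intro hb
    have hG := C.isB_of_germ hg hb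
    refine Subring.mul_mem _ (C.tfac_reg hG e hne hc) (sum_reg z (fun i => ?_) χ₀ χ)
    exact ih i (formal_of_local (trans_local (p i) hG))

end Pool.Agent.N127.TW
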