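import Pool.Agent.N103.V.Final
import Pool.Agent.R852.PP.FE
import Pool.Agent.Y230.PS.Last
import Pool.Agent.W574.CN.Gen
import Pool.Agent.N127.PB.Root

set_option autoImplicit false
set_option linter.unusedSectionVars false

/-! # Poles of twisted topological zeta functions of polynomials which are homogeneous in some of the
variables -/

namespace Pool.Agent.N127.TW

open MvPolynomial Pool.Agent.W574.SM Pool.Agent.R852.PP Pool.Agent.TH192.DT Pool.Agent.N103.V
open Pool.Agent.H628R4.TP (IsBFunction)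
open Pool.Agent.Y229.RE (trans trans_local)
open Pool.Agent.Y229.PS (formal_of_local)
open Pool.Agent.N127.PB (RootCond root_ideal)

/-- a functional equation and renaming of the variables -/
theorem isB_of_rename {σ σ' : Type} (ε : σ ≃ σ') (F : MvPolynomial σ ℂ) (b : Polynomial ℂ)
    (hb : IsBFunction (rename ε F) b) : IsBFunction F b := by
  classical
  have h1 : IsFunctionalEq (fun _ : Fin 1 => rename ε F) b :=
    Pool.Agent.Y230.PS.single_of_isB _ b hb
  have h2 : IsFunctionalEq (fun _ : Fin 1 => F) b :=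
    Pool.Agent.W574.RO.functionalEq_equiv ε (Equiv.refl (Fin 1)) (fun _ : Fin 1 => F)
      (fun _ : Fin 1 => rename ε F) (fun _ => rfl) b h1
  exact Pool.Agent.Y229.isB_of_single F b h2

section

variable {n : ℕ} {τ : Type} [Fintype τ] [DecidableEq τ] {κ : τ → Type} [∀ t, Fintype (κ t)]
  [∀ t, DecidableEq (κ t)] (a : τ → ℕ) (h : MvPolynomial (Fin (n + 1)) ℂ)
  (f : (t : τ) → κ t → MvPolynomial (Fin (n + 1)) ℂ)

theorem gen_homogeneous (dh : ℕ) (δ : τ → ℕ) (hh : h.IsHomogeneous dh)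
    (hf : ∀ t j, (f t j).IsHomogeneous (δ t)) (J : Ch κ a) :
    (gen a h f J).IsHomogeneous (dh + ∑ t, a t * δ t) := by
  have h1 : (prodFam (fun q : Σ t, Fin (a t) => f q.1) J).IsHomogeneous
      (∑ q : Σ t, Fin (a t), δ q.1) := by
    unfold prodFam
    exact IsHomogeneous.prod _ _ _ fun q _ => hf q.1 (J q)
  have h2 : (∑ q : Σ t, Fin (a t), δ q.1) = ∑ t, a t * δ t := by
    rw [Fintype.sum_sigma]
    refine Finset.sum_congr rfl fun t _ => ?_
    simp
  rw [← h2]
  exact hh.mul h1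

/-- the root `-(n + 1) / d` -/
theorem root_top (dh : ℕ) (δ : τ → ℕ) (hh : h.IsHomogeneous dh)
    (hf : ∀ t j, (f t j).IsHomogeneous (δ t)) (hh0 : h ≠ 0) (hf0 : ∀ t, ∃ j, f t j ≠ 0)
    [Nonempty τ] (ha : ∀ t, 0 < a t) (hd : 0 < dh + ∑ t, a t * δ t) (b : Polynomial ℂ)
    (hb : IsBFunction (form a h f) b)
    (hc : (∃ J : Fin (n + 1) → Ch κ a,
        (Matrix.of fun s t => pderiv s (gen a h f (J t))).det ≠ 0) ∨
      ∃ hn : n + 1 = 3, RootCond (Submodule.span ℂ (Set.range fun J : Ch κ a =>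
        rename (Fin.cast hn) (gen a h f J))) (dh + ∑ t, a t * δ t)) :
    b.eval (-((n : ℂ) + 1) / ((dh + ∑ t, a t * δ t : ℕ) : ℂ)) = 0 := by
  classical
  obtain ⟨t0⟩ := ‹Nonempty τ›
  obtain ⟨b', rfl, hb'⟩ := functionalEq_strong a h f hh0 hf0 t0 (ha t0).ne' b hb
  rw [Polynomial.eval_mul]
  refine mul_eq_zero_of_right _ ?_
  rcases hc with ⟨J, hJ⟩ | ⟨hn, hc⟩
  · exact Pool.Agent.W574.CN.generic_root (gen a h f) _ hd
      (gen_homogeneous a h f dh δ hh hf) b' hb' J hJ
  · obtain rfl : n = 2 := by omega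
    have h1 : (fun J : Ch κ a => rename (Fin.cast hn) (gen a h f J)) = gen a h f := by
      funext J
      have : (Fin.cast hn : Fin (2 + 1) → Fin 3) = id := rfl
      rw [this, rename_id]
      rfl
    rw [h1] at hc
    have h2 := root_ideal (gen a h f) _ hd (gen_homogeneous a h f dh δ hh hf) b' hb' hc
    rw [← h2]
    congr 1
    push_cast
    ring

end

end Pool.Agent.N127.TW
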